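import Pool.Agent.H95.DR.Targets

/-!
# Row AVA of the board `dfx_modules`: the vanishing of the terms which are not prime to the
conductor, for real quadratic fields
-/

set_option autoImplicit false

open MeasureTheory Set Filter NumberField
open scoped Real nonZeroDivisors Matrix MatrixGroups

namespace Pool.Agent.H78.DF

open Pool.Agent.H31.CN Pool.Agent.H89.FM Pool.Agent.H61.FM Pool.Agent.H89.FC Pool.Agent.H95.FC
open Pool.Agent.H89.DF Pool.Agent.H95.DR

theorem pf_VANr (hPRIr : T_PRIr) (hVNT : Pool.Agent.H95.FC.T_VNT) : T_VANr := by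
  intro K _ _ σ σ' f κ ν ψ I α β Q b T W hOB hVB hLT hR n p E hp hpn hpf
  classical
  have hf : 1 ≤ f := hR.pos
  have h1 : ∀ V ∈ T, rtr σ σ' κ ν ψ b α β V * ∑ L ∈ Tn n f Q V, E L =
      ∑ L ∈ Ls (n * f), E L * (if L ∈ Tn n f Q V then rtr σ σ' κ ν ψ b α β V else 0) := by
    intro V _
    have h2 : Tn n f Q V = (Ls (n * f)).filter (fun L => L ∈ Tn n f Q V) := by
      ext L
      rw [Finset.mem_filter]
      constructor
      · intro h
        refine ⟨?_, h⟩
        unfold Tn at h
        exact (Finset.mem_filter.1 h).1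
      · exact fun h => h.2
    conv_lhs => rw [h2]
    rw [Finset.mul_sum, Finset.sum_filter]
    apply Finset.sum_congr rfl
    intro L _
    split_ifs with h
    · ring
    · ring
  rw [Finset.sum_congr rfl h1, Finset.sum_comm]
  apply Finset.sum_eq_zero
  intro L _
  rw [← Finset.mul_sum]
  have h3 := hPRIr K σ σ' f κ ν ψ I α β Q b T W hOB hVB hLT hR p (fun V => L ∈ Tn n f Q V) hp hpf
    (by
      intro V hV V' hV' hdet
      have h4 := hVNT n f p Q V V' (W V) (W V') hf hp hpn hpf (hLT.un V hV) (hLT.un V' hV')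
        (hLT.one V hV) (hLT.one V' hV') hdet
      simp only [h4])
  have h5 : ∑ V ∈ T, (if L ∈ Tn n f Q V then rtr σ σ' κ ν ψ b α β V else 0) = 0 := by
    refine Eq.trans ?_ h3
    apply Finset.sum_congr rfl
    intro V _
    split_ifs <;> rfl
  rw [h5, mul_zero]

end Pool.Agent.H78.DF
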