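import Pool.Agent.H61.DF.Targets

/-!
# The trivial bound for the size of a family with bounded spectral parameters
-/

set_option autoImplicit false

open MeasureTheory Set Filter NumberField
open scoped Real nonZeroDivisors

namespace Pool.Agent.H78.DF

open Pool.Agent.H31.CN Pool.Agent.H89.FM Pool.Agent.H61.FM Pool.Agent.H89.FC Pool.Agent.H89.DF
open Pool.Agent.H61.DF

theorem fib_card {K : ℕ → Type} [∀ D, Field (K D)] [∀ D, NumberField (K D)]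
    (S : Finset (IXr K)) (f : IXr K → ℕ) (D f₀ : ℕ) :
    ∃ Ψ : Finset (Ideal (𝓞 (K D)) → ℂ),
      (∀ ψ ∈ Ψ, (⟨D, ψ⟩ : IXr K) ∈ S ∧ f ⟨D, ψ⟩ = f₀) ∧
      (S.filter (fun y => (y.1, f y) = (D, f₀))).card ≤ Ψ.card := by
  classical
  have hinj : Function.Injective (fun ψ : Ideal (𝓞 (K D)) → ℂ => (⟨D, ψ⟩ : IXr K)) := by
    intro a b hab
    exact eq_of_heq (Sigma.mk.inj hab).2
  have hpre : ∀ ψ : Ideal (𝓞 (K D)) → ℂ,
      ψ ∈ (S.filter (fun y => f y = f₀)).preimage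
        (fun ψ : Ideal (𝓞 (K D)) → ℂ => (⟨D, ψ⟩ : IXr K)) hinj.injOn ↔
      (⟨D, ψ⟩ : IXr K) ∈ S ∧ f ⟨D, ψ⟩ = f₀ := by
    intro ψ
    rw [Finset.mem_preimage, Finset.mem_filter]
  refine ⟨(S.filter (fun y => f y = f₀)).preimage
    (fun ψ : Ideal (𝓞 (K D)) → ℂ => (⟨D, ψ⟩ : IXr K)) hinj.injOn,
    fun ψ hψ => (hpre ψ).1 hψ, ?_⟩
  refine le_trans (Finset.card_le_card (t := ((S.filter (fun y => f y = f₀)).preimage
    (fun ψ : Ideal (𝓞 (K D)) → ℂ => (⟨D, ψ⟩ : IXr K)) hinj.injOn).image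
    (fun ψ : Ideal (𝓞 (K D)) → ℂ => (⟨D, ψ⟩ : IXr K))) ?_) Finset.card_image_le
  intro y hy
  obtain ⟨hyS, hyE⟩ := Finset.mem_filter.1 hy
  obtain ⟨D', ψ'⟩ := y
  have e1 : D' = D := (Prod.mk.inj hyE).1
  have e2 : f ⟨D', ψ'⟩ = f₀ := (Prod.mk.inj hyE).2
  subst e1
  exact Finset.mem_image.2 ⟨ψ', (hpre ψ').2 ⟨hyS, e2⟩, rfl⟩

theorem pf_CRDr (hHBD : T_HBDr) : T_CRDr := by
  classical
  obtain ⟨C, hC, hH⟩ := hHBD (1 / 2) (by norm_num)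
  refine ⟨C, hC, ?_⟩
  intro X V K _ _ σ σ' S f κ ν F hX hV hF
  have hX0 : (0 : ℝ) ≤ X := le_trans zero_le_one hX
  have hCV : 0 ≤ C * V ^ 2 := mul_nonneg hC.le (sq_nonneg V)
  set N : ℕ := ⌊X⌋₊ with hN
  have hNX : (N : ℝ) ≤ X := Nat.floor_le hX0
  have hfib : ∀ D f₀ : ℕ,
      ((S.filter (fun y => (y.1, f y) = (D, f₀))).card : ℝ) ≤ C * V ^ 2 * X := by
    intro D f₀
    obtain ⟨Ψ, hΨ, hcard⟩ := fib_card S f D f₀
    rcases Ψ.eq_empty_or_nonempty with h0 | ⟨ψ, hψ⟩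
    · rw [h0, Finset.card_empty] at hcard
      have h1 : (S.filter (fun y => (y.1, f y) = (D, f₀))).card = 0 := Nat.le_zero.1 hcard
      rw [h1, Nat.cast_zero]
      exact mul_nonneg hCV hX0
    · have hRQ : RQ (K D) D (σ D) (σ' D) := hF.rq _ (hΨ ψ hψ).1
      have hq : (D : ℝ) * (f₀ : ℝ) ^ 2 ≤ X := by
        have h1 := (hF.q _ (hΨ ψ hψ).1).2
        unfold lvr at h1
        rw [(hΨ ψ hψ).2] at h1
        exact h1
      have hb := hH (K D) (σ D) (σ' D) D f₀ V Ψ (fun ψ' => κ ⟨D, ψ'⟩) (fun ψ' => ν ⟨D, ψ'⟩)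
        hRQ hV (fun ψ' hψ' => by
          have h1 := hF.ch _ (hΨ ψ' hψ').1
          rw [(hΨ ψ' hψ').2] at h1
          exact ⟨h1, hF.nu _ (hΨ ψ' hψ').1⟩)
      have e : (1 / 2 + 1 / 2 : ℝ) = 1 := by norm_num
      rw [e, Real.rpow_one] at hb
      have h2 : ((S.filter (fun y => (y.1, f y) = (D, f₀))).card : ℝ) ≤ (Ψ.card : ℝ) := by
        exact_mod_cast hcard
      exact h2.trans (hb.trans (mul_le_mul_of_nonneg_left hq hCV))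
  have hmaps : ∀ y ∈ S, (fun y : IXr K => (y.1, f y)) y ∈
      Finset.Icc 1 N ×ˢ Finset.Icc 1 N := by
    intro y hy
    have hD : 1 ≤ y.1 := (hF.rq y hy).pos
    have hf : 1 ≤ f y := (hF.ch y hy).pos
    have hq : (y.1 : ℝ) * (f y : ℝ) ^ 2 ≤ X := (hF.q y hy).2
    have hD' : (1 : ℝ) ≤ (y.1 : ℝ) := by exact_mod_cast hD
    have hf' : (1 : ℝ) ≤ (f y : ℝ) := by exact_mod_cast hf
    have hf2 : (f y : ℝ) ≤ (f y : ℝ) ^ 2 := by nlinarith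
    have hf1 : (1 : ℝ) ≤ (f y : ℝ) ^ 2 := hf'.trans hf2
    have a1 : (y.1 : ℝ) ≤ X :=
      le_trans (le_mul_of_one_le_right (zero_le_one.trans hD') hf1) hq
    have a2 : (f y : ℝ) ≤ X :=
      le_trans (hf2.trans (le_mul_of_one_le_left (zero_le_one.trans hf1) hD')) hq
    exact Finset.mem_product.2 ⟨Finset.mem_Icc.2 ⟨hD, Nat.le_floor a1⟩,
      Finset.mem_Icc.2 ⟨hf, Nat.le_floor a2⟩⟩
  have hsum := Finset.card_eq_sum_card_fiberwise hmaps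
  have h3 : (S.card : ℝ) = ∑ b ∈ Finset.Icc 1 N ×ˢ Finset.Icc 1 N,
      ((S.filter (fun y => (y.1, f y) = b)).card : ℝ) := by
    rw [hsum, Nat.cast_sum]
  have h4 : ∑ b ∈ Finset.Icc 1 N ×ˢ Finset.Icc 1 N,
      ((S.filter (fun y => (y.1, f y) = b)).card : ℝ) ≤
      ∑ b ∈ Finset.Icc 1 N ×ˢ Finset.Icc 1 N, C * V ^ 2 * X :=
    Finset.sum_le_sum (fun b _ => hfib b.1 b.2)
  have h5 : ∑ b ∈ Finset.Icc 1 N ×ˢ Finset.Icc 1 N, C * V ^ 2 * X =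
      (N : ℝ) * N * (C * V ^ 2 * X) := by
    rw [Finset.sum_const, Finset.card_product, Nat.card_Icc, Nat.add_sub_cancel, nsmul_eq_mul,
      Nat.cast_mul]
  have hCX : 0 ≤ C * V ^ 2 * X := mul_nonneg hCV hX0
  have hN0 : (0 : ℝ) ≤ (N : ℝ) := Nat.cast_nonneg N
  calc (S.card : ℝ) ≤ (N : ℝ) * N * (C * V ^ 2 * X) := by rw [h3, ← h5]; exact h4
    _ ≤ X * X * (C * V ^ 2 * X) :=
        mul_le_mul_of_nonneg_right (mul_le_mul hNX hNX hN0 hX0) hCX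
    _ = C * V ^ 2 * X ^ 3 := by ring

end Pool.Agent.H78.DF
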